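import Pool.Agent.W_b58c63_h68.Fin

/-!
# All but a power-small set of even numbers: a prime in the window with a partner with at most two prime factors

For all but `O (X ^ (3 / 5))` of the `n ≤ X` there are at least `c √(2 n) / log ^ 2 (2 n)` primes `p` in the
interval `(√(2 n), 4 √(2 n))` such that `2 n - p` is a positive integer with at most two prime factors, counted
with multiplicity.
-/

set_option autoImplicit false

namespace Pool.Agent.Results.MP_b58c63_nt.AlmostAllChenPartner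

open ArithmeticFunction

theorem result : ∃ c C : ℝ, 0 < c ∧ ∀ X : ℕ, 1 ≤ X →
    (Set.ncard {n : ℕ | 1 ≤ n ∧ n ≤ X ∧
      (Set.ncard {p : ℕ | p.Prime ∧ Real.sqrt (2 * n) < p ∧ (p : ℝ) < 4 * Real.sqrt (2 * n) ∧
        p < 2 * n ∧ cardFactors (2 * n - p) ≤ 2} : ℝ) <
      c * Real.sqrt (2 * n) / Real.log (2 * n) ^ 2} : ℝ) ≤ C * (X : ℝ) ^ (3 / 5 : ℝ) := by
  classical
  obtain ⟨c, C, hc, h⟩ := Wb58c63.exc2
  refine ⟨c, C, hc, fun X hX => ?_⟩
  have h1 := h X hX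
  have h2 : ∀ n : ℕ, {p : ℕ | p.Prime ∧ Real.sqrt (2 * n) < p ∧
      (p : ℝ) < 4 * Real.sqrt (2 * n) ∧ p < 2 * n ∧ cardFactors (2 * n - p) ≤ 2} =
      (Wb58c63.gd n 2 : Set ℕ) := by
    intro n
    ext p
    simp only [Wb58c63.gd, Set.mem_setOf_eq, Finset.coe_filter, Finset.mem_range, Nat.cast_mul,
      Nat.cast_ofNat]
    tauto
  have h3 : {n : ℕ | 1 ≤ n ∧ n ≤ X ∧
      (Set.ncard {p : ℕ | p.Prime ∧ Real.sqrt (2 * n) < p ∧ (p : ℝ) < 4 * Real.sqrt (2 * n) ∧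
        p < 2 * n ∧ cardFactors (2 * n - p) ≤ 2} : ℝ) <
      c * Real.sqrt (2 * n) / Real.log (2 * n) ^ 2} =
      (((Finset.Icc 1 X).filter fun n : ℕ => ((Wb58c63.gd n 2).card : ℝ) <
        c * Real.sqrt (2 * n : ℕ) / Real.log (2 * n : ℕ) ^ 2 : Finset ℕ) : Set ℕ) := by
    ext n
    simp only [h2, Set.ncard_coe_finset, Set.mem_setOf_eq, Finset.coe_filter, Finset.mem_Icc,
      Nat.cast_mul, Nat.cast_ofNat]
    tauto
  rw [h3, Set.ncard_coe_finset]
  convert h1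

end Pool.Agent.Results.MP_b58c63_nt.AlmostAllChenPartner
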