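import Pool.Agent.W_b58c63_h44.Res

/-!
# All but a power-small set of even numbers: a prime in the window with a prime partner

For every `ε > 0` there is `δ > 0` such that for all but `O (X ^ (1 - δ))` of the `n ≤ X` the interval
`(√(2 n), 4 √(2 n))` has at least `(2 n) ^ (1 / 2 - ε)` primes `p` such that `2 n - p` is a prime different
from `p`.
-/

set_option autoImplicit false

namespace Pool.Agent.Results.MP_b58c63_nt.AlmostAllPrimePartner

theorem result : ∀ ε : ℝ, 0 < ε → ∃ δ C : ℝ, 0 < δ ∧ ∀ X : ℕ, 1 ≤ X →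
    (Set.ncard {n : ℕ | 1 ≤ n ∧ n ≤ X ∧
      (Set.ncard {p : ℕ | p.Prime ∧ (2 * n - p).Prime ∧ p ≠ 2 * n - p ∧ Real.sqrt (2 * n) < p ∧
        (p : ℝ) < 4 * Real.sqrt (2 * n)} : ℝ) < (2 * n : ℝ) ^ (1 / 2 - ε)} : ℝ) ≤ C * (X : ℝ) ^ (1 - δ) :=
  Pool.Agent.PSG.res_main

end Pool.Agent.Results.MP_b58c63_nt.AlmostAllPrimePartner
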